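import Pool.Agent.W586.CS.Stm

/-!
Project CS: transfer to an arbitrary Clifford representation.
-/

set_option autoImplicit false

namespace Pool.Agent.W922.CS

open Pool.Agent.W586.CS

section cliff

variable {d m : ℕ}

theorem mem_fl {i j : Fin d} {I : Finset (Fin d)} (h : i ≠ j) : i ∈ fl j I ↔ i ∈ I := by
  unfold fl
  split_ifs with hj
  · rw [Finset.mem_erase]; exact ⟨fun x => x.2, fun x => ⟨h, x⟩⟩
  · rw [Finset.mem_insert]; exact ⟨fun x => x.resolve_left h, fun x => Or.inr x⟩

theorem self_mem_fl {j : Fin d} {I : Finset (Fin d)} : j ∈ fl j I ↔ j ∉ I := by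
  unfold fl
  split_ifs with hj
  · simp [hj]
  · simp [hj]

theorem fl_fl (j : Fin d) (I : Finset (Fin d)) : fl j (fl j I) = I := by
  ext i
  by_cases h : i = j
  · subst h
    rw [self_mem_fl, self_mem_fl, not_not]
  · rw [mem_fl h, mem_fl h]

theorem sg_fl (j : Fin d) (I : Finset (Fin d)) : sg j (fl j I) = sg j I := by
  unfold sg
  congr 2
  ext i
  simp only [Finset.mem_filter]
  constructor
  · rintro ⟨h1, h2⟩
    exact ⟨(mem_fl h2.ne).1 h1, h2⟩
  · rintro ⟨h1, h2⟩
    exact ⟨(mem_fl h2.ne).2 h1, h2⟩

/-- flipping as a permutation -/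
def flE (j : Fin d) : Equiv.Perm (Finset (Fin d)) := Function.Involutive.toPerm (fl j) (fl_fl j)

/-- parity -/
def par (I : Finset (Fin d)) : ℂ := (-1) ^ I.card

/-- membership sign -/
def mu (j : Fin d) (I : Finset (Fin d)) : ℂ := if j ∈ I then -1 else 1

theorem par_sq (I : Finset (Fin d)) : par I * par I = 1 := by
  unfold par
  rw [← mul_pow]
  simp

theorem par_fl (j : Fin d) (I : Finset (Fin d)) : par (fl j I) = -par I := by
  unfold par fl
  split_ifs with h
  · have : I.card = (I.erase j).card + 1 := (Finset.card_erase_add_one h).symm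
    rw [this, pow_succ]
    ring
  · rw [Finset.card_insert_of_notMem h, pow_succ]
    ring

theorem par_erase (j : Fin d) (I : Finset (Fin d)) :
    ((-1 : ℂ)) ^ (I.erase j).card = par I * mu j I := by
  unfold par mu
  split_ifs with h
  · have : I.card = (I.erase j).card + 1 := (Finset.card_erase_add_one h).symm
    rw [this, pow_succ]
    ring
  · rw [Finset.erase_eq_of_notMem h, mul_one]

variable (γ : Fin d → Matrix (Fin m) (Fin m) ℂ)

/-- one factor -/
def fac (I : Finset (Fin d)) (i : Fin d) : Matrix (Fin m) (Fin m) ℂ := if i ∈ I then γ i else 1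

/-- the ordered product -/
def gI (I : Finset (Fin d)) : Matrix (Fin m) (Fin m) ℂ := ((List.finRange d).map (fac γ I)).prod

variable {γ}

theorem left_list (hs : ∀ j, γ j * γ j = 1) (ha : ∀ j k, j ≠ k → γ j * γ k = -(γ k * γ j))
    (j : Fin d) (I : Finset (Fin d)) : ∀ l : List (Fin d), l.Pairwise (· < ·) → j ∈ l →
    γ j * (l.map (fac γ I)).prod =
      (l.map (fun i => if i ∈ I ∧ i < j then (-1 : ℂ) else 1)).prod •
        (l.map (fac γ (fl j I))).prod := by
  intro l
  induction l with
  | nil => intro _ h; exact absurd h (List.not_mem_nil)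
  | cons i l ih =>
    intro hp hj
    rw [List.pairwise_cons] at hp
    obtain ⟨hp1, hp2⟩ := hp
    rw [List.map_cons, List.map_cons, List.map_cons, List.prod_cons, List.prod_cons,
      List.prod_cons]
    by_cases hij : i = j
    · subst hij
      have e1 : (l.map (fun k => if k ∈ I ∧ k < i then (-1 : ℂ) else 1)).prod = 1 := by
        apply List.prod_eq_one
        intro x hx
        rw [List.mem_map] at hx
        obtain ⟨k, hk, rfl⟩ := hx
        rw [if_neg]
        rintro ⟨_, h⟩
        exact absurd (hp1 k hk) (not_lt.2 h.le)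
      have e2 : l.map (fac γ (fl i I)) = l.map (fac γ I) := by
        apply List.map_congr_left
        intro k hk
        have hne : k ≠ i := (hp1 k hk).ne'
        unfold fac
        by_cases hkI : k ∈ I
        · rw [if_pos hkI, if_pos ((mem_fl hne).2 hkI)]
        · rw [if_neg hkI, if_neg (fun h => hkI ((mem_fl hne).1 h))]
      rw [e1, e2, if_neg (fun h => absurd h.2 (lt_irrefl _)), one_mul, one_smul, ← mul_assoc]
      congr 1
      unfold fac
      by_cases hi : i ∈ I
      · rw [if_pos hi, if_neg (fun h => self_mem_fl.1 h hi), hs]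
      · rw [if_neg hi, if_pos (self_mem_fl.2 hi), mul_one]
    · have hjl : j ∈ l := (List.mem_cons.1 hj).resolve_left (fun h => hij h.symm)
      have hlt : i < j := hp1 j hjl
      have h1 := ih hp2 hjl
      by_cases hi : i ∈ I
      · have e1 : fac γ I i = γ i := if_pos hi
        have e2 : fac γ (fl j I) i = γ i := if_pos ((mem_fl hij).2 hi)
        rw [e1, e2, if_pos ⟨hi, hlt⟩, ← mul_assoc, ha j i (fun h => hij h.symm), neg_mul, mul_assoc,
          h1, mul_smul_comm, neg_one_mul, neg_smul]
      · have e1 : fac γ I i = 1 := if_neg hi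
        have e2 : fac γ (fl j I) i = 1 := if_neg (fun h => hi ((mem_fl hij).1 h))
        rw [e1, e2, if_neg (fun h => hi h.1), one_mul, one_mul, one_mul, h1]

theorem left_gI (hs : ∀ j, γ j * γ j = 1) (ha : ∀ j k, j ≠ k → γ j * γ k = -(γ k * γ j))
    (j : Fin d) (I : Finset (Fin d)) : γ j * gI γ I = ((sg j I : ℝ) : ℂ) • gI γ (fl j I) := by
  unfold gI
  rw [left_list hs ha j I _ (List.pairwise_lt_finRange d) (List.mem_finRange j)]
  congr 1
  rw [← Fin.prod_univ_def, Finset.prod_ite, Finset.prod_const_one, mul_one, Finset.prod_const]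
  unfold sg
  push_cast
  congr 2
  ext i
  simp

theorem comm_list (ha : ∀ j k, j ≠ k → γ j * γ k = -(γ k * γ j))
    (j : Fin d) (I : Finset (Fin d)) : ∀ l : List (Fin d),
    γ j * (l.map (fac γ I)).prod =
      (l.map (fun i => if i ∈ I ∧ i ≠ j then (-1 : ℂ) else 1)).prod •
        ((l.map (fac γ I)).prod * γ j) := by
  intro l
  induction l with
  | nil => simp
  | cons i l ih =>
    rw [List.map_cons, List.map_cons, List.prod_cons, List.prod_cons]
    by_cases hi : i ∈ I
    · have e1 : fac γ I i = γ i := if_pos hi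
      rw [e1]
      by_cases hij : i = j
      · subst hij
        rw [if_neg (fun h => h.2 rfl), one_mul, mul_assoc (γ i), ← mul_smul_comm, ← ih]
      · rw [if_pos ⟨hi, hij⟩, ← mul_assoc, ha j i (fun h => hij h.symm), neg_mul, mul_assoc (γ i),
          ih, mul_smul_comm, neg_one_mul, neg_smul, mul_assoc (γ i)]
    · have e1 : fac γ I i = 1 := if_neg hi
      rw [e1, if_neg (fun h => hi h.1), one_mul, one_mul, ih]

theorem conj_gI (hs : ∀ j, γ j * γ j = 1) (ha : ∀ j k, j ≠ k → γ j * γ k = -(γ k * γ j))
    (j : Fin d) (I : Finset (Fin d)) : γ j * gI γ I * γ j = (par I * mu j I) • gI γ I := by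
  have h := comm_list ha j I (List.finRange d)
  have e : ((List.finRange d).map (fun i => if i ∈ I ∧ i ≠ j then (-1 : ℂ) else 1)).prod
      = par I * mu j I := by
    rw [← Fin.prod_univ_def, Finset.prod_ite, Finset.prod_const_one, mul_one, Finset.prod_const,
      ← par_erase]
    congr 2
    ext i
    simp [and_comm]
  unfold gI
  rw [h, e, smul_mul_assoc, mul_assoc, hs, mul_one]

theorem gI_ne (hs : ∀ j, γ j * γ j = 1) (hm : 0 < m) (I : Finset (Fin d)) : gI γ I ≠ 0 := by
  have : Nonempty (Fin m) := ⟨⟨0, hm⟩⟩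
  have h : IsUnit (gI γ I) := by
    unfold gI
    apply List.prod_isUnit
    intro x hx
    rw [List.mem_map] at hx
    obtain ⟨i, _, rfl⟩ := hx
    unfold fac
    split_ifs
    · exact ⟨⟨γ i, γ i, hs i, hs i⟩, rfl⟩
    · exact isUnit_one
  exact h.ne_zero

end cliff

theorem entry {n d m : ℕ} (B : Fin d → Matrix (Fin n) (Fin n) ℂ)
    (γ : Fin d → Matrix (Fin m) (Fin m) ℂ) (Y : Fin n → Matrix (Fin m) (Fin m) ℂ)
    (v : Fin m → ℂ) (a : Fin n) (p : Fin m) :
    Matrix.mulVec (∑ j, (B j).kronecker (γ j)) (fun q => Matrix.mulVec (Y q.1) v q.2) (a, p) =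
      Matrix.mulVec (∑ j, ∑ b, B j a b • (γ j * Y b)) v p := by
  rw [Matrix.sum_mulVec, Matrix.sum_mulVec, Finset.sum_apply, Finset.sum_apply]
  refine Finset.sum_congr rfl (fun j _ => ?_)
  rw [Matrix.sum_mulVec, Finset.sum_apply]
  have h : ∀ b, Matrix.mulVec (B j a b • (γ j * Y b)) v p
      = ∑ p', B j a b * (γ j p p' * Matrix.mulVec (Y b) v p') := by
    intro b
    rw [Matrix.smul_mulVec, Pi.smul_apply, smul_eq_mul, ← Matrix.mulVec_mulVec, ← Finset.mul_sum]
    rfl
  rw [Finset.sum_congr rfl (fun b _ => h b)]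
  show ∑ q : Fin n × Fin m, (B j).kronecker (γ j) (a, p) q * Matrix.mulVec (Y q.1) v q.2 = _
  rw [Fintype.sum_prod_type]
  refine Finset.sum_congr rfl (fun b _ => Finset.sum_congr rfl (fun p' _ => ?_))
  show B j a b * γ j p p' * _ = _
  ring

theorem main : S_TR := by
  intro n d m hm A γ hs ha x ζ hζ heq
  by_contra hdet
  obtain ⟨B, hB⟩ : ∃ B : Fin d → Matrix (Fin n) (Fin n) ℂ,
    B = fun j => A j - ((x j : ℂ)) • (1 : Matrix (Fin n) (Fin n) ℂ) := ⟨_, rfl⟩
  have hBζ : ∀ j I a, ∑ b, B j a b * ζ I b = ∑ b, A j a b * ζ I b - (x j : ℂ) * ζ I a := by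
    intro j I a
    rw [hB]
    simp only [Matrix.sub_apply, Matrix.smul_apply, smul_eq_mul, sub_mul, Finset.sum_sub_distrib]
    congr 1
    rw [Finset.sum_eq_single a]
    · simp
    · intro b _ hb
      rw [Matrix.one_apply_ne (Ne.symm hb)]
      ring
    · intro h
      exact absurd (Finset.mem_univ a) h
  have heq' : ∀ I a, ∑ j : Fin d, (sg j I : ℂ) * ∑ b, B j a b * ζ (fl j I) b = 0 := by
    intro I a
    rw [← heq I a]
    exact Finset.sum_congr rfl (fun j _ => by rw [hBζ])
  -- the matrices `X c a`
  let X : (Finset (Fin d) → ℂ) → Fin n → Matrix (Fin m) (Fin m) ℂ :=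
    fun c a => ∑ I, (c I * ζ I a) • gI γ I
  -- the kernel argument
  have hker : ∀ (e : Finset (Fin d) → ℂ) (s : ℂ), (∀ j I, e (fl j I) = s * e I) →
      ∀ a, X e a = 0 := by
    intro e s he
    have hZ : ∀ a, ∑ j, ∑ b, B j a b • (γ j * X e b) = 0 := by
      intro a
      have h1 : ∀ j, ∑ b, B j a b • (γ j * X e b)
          = ∑ J, (s * e J * ((sg j J : ℂ) * ∑ b, B j a b * ζ (fl j J) b)) • gI γ J := by
        intro j
        have h2 : ∀ b, B j a b • (γ j * X e b)
            = ∑ I, (B j a b * (e I * ζ I b) * (sg j I : ℂ)) • gI γ (fl j I) := by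
          intro b
          simp only [X]
          rw [Finset.mul_sum, Finset.smul_sum]
          refine Finset.sum_congr rfl (fun I _ => ?_)
          rw [mul_smul_comm, left_gI hs ha, smul_smul, smul_smul]
        rw [Finset.sum_congr rfl (fun b _ => h2 b), Finset.sum_comm]
        rw [← Equiv.sum_comp (flE j)]
        refine Finset.sum_congr rfl (fun J _ => ?_)
        have hJ : flE j J = fl j J := rfl
        rw [hJ, fl_fl, sg_fl, he, ← Finset.sum_smul]
        congr 1
        rw [Finset.mul_sum, Finset.mul_sum]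
        exact Finset.sum_congr rfl (fun b _ => by ring)
      rw [Finset.sum_congr rfl (fun j _ => h1 j), Finset.sum_comm]
      refine Finset.sum_eq_zero (fun J _ => ?_)
      rw [← Finset.sum_smul, ← Finset.mul_sum, heq' J a, mul_zero, zero_smul]
    have hv : ∀ v : Fin m → ℂ, ∀ a, Matrix.mulVec (X e a) v = 0 := by
      intro v
      have hw : (fun q : Fin n × Fin m => Matrix.mulVec (X e q.1) v q.2) = 0 := by
        apply Matrix.eq_zero_of_mulVec_eq_zero hdet
        funext q
        obtain ⟨a, p⟩ := q
        have h3 : Matrix.mulVec (∑ j, ∑ b, B j a b • (γ j * X e b)) v p = 0 := by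
          rw [hZ a, Matrix.zero_mulVec]
          rfl
        rw [Pi.zero_apply, ← h3, ← entry B γ (X e) v a p, hB]
      intro a
      funext p
      exact congrFun hw (a, p)
    intro a
    have : ∀ v, Matrix.mulVec (X e a) v = Matrix.mulVec 0 v := by
      intro v
      rw [hv v a, Matrix.zero_mulVec]
    exact Matrix.ext_of_mulVec_single (fun i => this _)
  -- the good functions
  have hgood : ∀ (a : Fin n) (I0 : Finset (Fin d)) (S : Finset (Fin d)),
      X (fun I => ∏ j ∈ S, (1 + mu j I0 * mu j I)) a = 0 ∧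
      X (fun I => (∏ j ∈ S, (1 + mu j I0 * mu j I)) * par I) a = 0 := by
    intro a I0 S
    have hconj : ∀ (c : Finset (Fin d) → ℂ) (j : Fin d), X c a = 0 →
        X (fun I => c I * par I * mu j I) a = 0 := by
      intro c j hc
      have h1 : γ j * X c a * γ j = X (fun I => c I * par I * mu j I) a := by
        simp only [X]
        rw [Finset.mul_sum, Finset.sum_mul]
        refine Finset.sum_congr rfl (fun I _ => ?_)
        rw [mul_smul_comm, smul_mul_assoc, conj_gI hs ha, smul_smul]
        congr 1
        ring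
      rw [← h1, hc, mul_zero, zero_mul]
    have hlin : ∀ (c c' : Finset (Fin d) → ℂ) (α : ℂ), X c a = 0 → X c' a = 0 →
        X (fun I => c I + α * c' I) a = 0 := by
      intro c c' α hc hc'
      have h1 : X (fun I => c I + α * c' I) a = X c a + α • X c' a := by
        simp only [X]
        rw [Finset.smul_sum, ← Finset.sum_add_distrib]
        refine Finset.sum_congr rfl (fun I _ => ?_)
        rw [smul_smul, ← add_smul]
        congr 1
        ring
      rw [h1, hc, hc', smul_zero, add_zero]
    induction S using Finset.induction_on with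
    | empty =>
      constructor
      · have := hker (fun _ => 1) 1 (fun _ _ => by ring) a
        simpa using this
      · have := hker (fun I => par I) (-1) (fun j I => by rw [par_fl]; ring) a
        simpa using this
    | insert j S hj ih =>
      obtain ⟨ih1, ih2⟩ := ih
      constructor
      · have h1 := hlin _ _ (mu j I0) ih1 (hconj _ j ih2)
        have e : (fun I => ∏ k ∈ insert j S, (1 + mu k I0 * mu k I)) = fun I =>
            (∏ k ∈ S, (1 + mu k I0 * mu k I)) + mu j I0 *
              ((∏ k ∈ S, (1 + mu k I0 * mu k I)) * par I * par I * mu j I) := by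
          funext I
          rw [Finset.prod_insert hj, mul_assoc _ (par I) (par I), par_sq]
          ring
        rw [e]
        exact h1
      · have h1 := hlin _ _ (mu j I0) ih2 (hconj _ j ih1)
        have e : (fun I => (∏ k ∈ insert j S, (1 + mu k I0 * mu k I)) * par I) = fun I =>
            (∏ k ∈ S, (1 + mu k I0 * mu k I)) * par I + mu j I0 *
              ((∏ k ∈ S, (1 + mu k I0 * mu k I)) * par I * mu j I) := by
          funext I
          rw [Finset.prod_insert hj]
          ring
        rw [e]
        exact h1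
  apply hζ
  funext I0 a
  have h1 := (hgood a I0 Finset.univ).1
  simp only [X] at h1
  rw [Finset.sum_eq_single I0] at h1
  · rw [smul_eq_zero] at h1
    have h2 := h1.resolve_right (gI_ne hs hm I0)
    rw [mul_eq_zero] at h2
    rcases h2 with h2 | h2
    · exfalso
      rw [Finset.prod_eq_zero_iff] at h2
      obtain ⟨j, _, hj⟩ := h2
      unfold mu at hj
      split_ifs at hj <;> norm_num at hj
    · exact h2
  · intro I _ hI
    have : ∃ j, ¬ (j ∈ I ↔ j ∈ I0) := by
      by_contra hcon
      push Not at hcon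
      exact hI (Finset.ext hcon)
    obtain ⟨j, hj⟩ := this
    have hz : ∏ j : Fin d, (1 + mu j I0 * mu j I) = 0 := by
      apply Finset.prod_eq_zero (Finset.mem_univ j)
      unfold mu
      by_cases h1 : j ∈ I <;> by_cases h2 : j ∈ I0
      · exact absurd (by tauto) hj
      · rw [if_neg h2, if_pos h1]; ring
      · rw [if_pos h2, if_neg h1]; ring
      · exact absurd (by tauto) hj
    rw [hz, zero_mul, zero_smul]
  · intro h
    exact absurd (Finset.mem_univ _) h

end Pool.Agent.W922.CS
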